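import Mathlib
import Pool.Agent.Q184.Poncelet.Core
import Pool.Agent.Q184.Poncelet.Circum
import Pool.Agent.Q184.Poncelet.Ell

/-!
# A point of constant power with respect to the circumcircles of Poncelet triangles

The Euclidean plane is `ℂ`.
-/

open ComplexConjugate Q184.Poncelet

namespace Pool.Agent.Results.MP_d21a88_gt.CircumcirclePower

/-- An ellipse (circles allowed) in the Euclidean plane `ℂ`: its centre, a unit vector `dir` along
the major axis and the semi-axes `α ≥ β > 0`. -/
structure Ellipse where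
  /-- the centre -/
  center : ℂ
  /-- a unit vector in the direction of the major axis -/
  dir : ℂ
  /-- the major semi-axis -/
  α : ℝ
  /-- the minor semi-axis -/
  β : ℝ
  norm_dir : ‖dir‖ = 1
  β_pos : 0 < β
  β_le : β ≤ α

/-- `(x/α)² + (y/β)²`, where `x` and `y` are the coordinates of `w` in the frame with origin at the
centre and axes along the axes of the ellipse. -/
noncomputable def Ellipse.form (E : Ellipse) (w : ℂ) : ℝ :=
  (((w - E.center) * conj E.dir).re / E.α) ^ 2 + (((w - E.center) * conj E.dir).im / E.β) ^ 2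

/-- The points of the ellipse. -/
def Ellipse.curve (E : Ellipse) : Set ℂ := {w | E.form w = 1}

/-- The open region bounded by the ellipse. -/
def Ellipse.inside (E : Ellipse) : Set ℂ := {w | E.form w < 1}

/-- The line through `P` and `Q` is tangent to the ellipse `C` (it meets it in exactly one
point). -/
def SideTangent (C : Ellipse) (P Q : ℂ) : Prop := ∃! w, w ∈ C.curve ∧ w ∈ line[ℝ, P, Q]

/-- `T` belongs to the 3-periodic family of the pair `(E, C)`: its vertices are on `E` and its
sides are tangent to `C`. -/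
def IsThreePeriodic (E C : Ellipse) (T : Affine.Triangle ℝ ℂ) : Prop :=
  (∀ i, T.points i ∈ E.curve) ∧ ∀ i j, i ≠ j → SideTangent C (T.points i) (T.points j)

theorem tan_of_sideTangent {E C : Ellipse} {c0 μ ν : ℂ} (hμν : ‖μ‖ ≠ ‖ν‖)
    (hpsi : ∀ u : ℂ, psi E.center E.dir E.α E.β (phi C.center C.dir C.α C.β u) =
      c0 + μ * u + ν * conj u) {P Q : ℂ} (hP : P ∈ E.curve) (hQ : Q ∈ E.curve) (hPQ : P ≠ Q)
    (h : SideTangent C P Q) :
    Tan c0 μ ν (psi E.center E.dir E.α E.β P) (psi E.center E.dir E.α E.β Q) := by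
  have hα : E.α ≠ 0 := (lt_of_lt_of_le E.β_pos E.β_le).ne'
  have hβ : E.β ≠ 0 := E.β_pos.ne'
  have hα' : C.α ≠ 0 := (lt_of_lt_of_le C.β_pos C.β_le).ne'
  have hβ' : C.β ≠ 0 := C.β_pos.ne'
  have hn : ∀ w : ℂ, w ∈ E.curve → ‖psi E.center E.dir E.α E.β w‖ = 1 := by
    intro w hw
    have h1 : ‖psi E.center E.dir E.α E.β w‖ ^ 2 = 1 := by
      rw [norm_psi_sq]
      exact hw
    exact (pow_eq_one_iff_of_nonneg (norm_nonneg _) two_ne_zero).mp h1
  have hC : ∀ u : ℂ, ‖u‖ = 1 → phi C.center C.dir C.α C.β u ∈ C.curve := by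
    intro u hu
    change C.form _ = 1
    unfold Ellipse.form
    rw [← norm_psi_sq, psi_phi C.norm_dir hα' hβ', hu]
    norm_num
  have hline := fun w => mem_line_iff E.norm_dir hα hβ (hn P hP) (hn Q hQ) hPQ w
  obtain ⟨w, ⟨hw1, hw2⟩, hw3⟩ := h
  have hwn : ‖psi C.center C.dir C.α C.β w‖ = 1 := by
    have h1 : ‖psi C.center C.dir C.α C.β w‖ ^ 2 = 1 := by
      rw [norm_psi_sq]
      exact hw1
    exact (pow_eq_one_iff_of_nonneg (norm_nonneg _) two_ne_zero).mp h1
  refine tan_of_unique hμν (hn P hP) (hn Q hQ) hwn ?_ ?_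
  · rw [← hpsi, phi_psi C.norm_dir hα' hβ']
    exact (hline w).mp hw2
  · intro u hu hu2
    rw [← hpsi] at hu2
    have h2 := hw3 _ ⟨hC u hu, (hline _).mpr hu2⟩
    rw [← h2, psi_phi C.norm_dir hα' hβ']

/-- For every pair of ellipses `E`, `C` with `C` strictly inside `E` there is a point `P` whose
power with respect to the circumcircle is the same for all triangles of the 3-periodic family. -/
theorem result (E C : Ellipse) (hCE : C.curve ⊆ E.inside) :
    ∃ (P : ℂ) (κ : ℝ), ∀ T : Affine.Triangle ℝ ℂ, IsThreePeriodic E C T →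
      T.circumsphere.power P = κ := by
  have hαp : 0 < E.α := lt_of_lt_of_le E.β_pos E.β_le
  have hα : E.α ≠ 0 := hαp.ne'
  have hβ : E.β ≠ 0 := E.β_pos.ne'
  have hαp' : 0 < C.α := lt_of_lt_of_le C.β_pos C.β_le
  have hα' : C.α ≠ 0 := hαp'.ne'
  have hβ' : C.β ≠ 0 := C.β_pos.ne'
  obtain ⟨c0, μ, ν, hμν, hpsi⟩ := psi_phi' (c := E.center) (c' := C.center) hα hβ E.norm_dir
    C.norm_dir (mul_pos hαp' C.β_pos) (mul_pos hαp E.β_pos)
  have hin : ∀ u : ℂ, ‖u‖ = 1 → ‖c0 + μ * u + ν * conj u‖ < 1 := by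
    intro u hu
    have h1 : phi C.center C.dir C.α C.β u ∈ C.curve := by
      change C.form _ = 1
      unfold Ellipse.form
      rw [← norm_psi_sq, psi_phi C.norm_dir hα' hβ', hu]
      norm_num
    have h2 : ‖psi E.center E.dir E.α E.β (phi C.center C.dir C.α C.β u)‖ ^ 2 < 1 := by
      rw [norm_psi_sq]
      exact hCE h1
    rw [hpsi] at h2
    nlinarith [norm_nonneg (c0 + μ * u + ν * conj u)]
  obtain ⟨p, κ, hp⟩ := circum_core ((E.α + E.β) / 2) ((E.α - E.β) / 2)
    (by linarith [E.β_le]) (by linarith [E.β_pos]) c0 μ ν hin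
  refine ⟨E.center + E.dir * p, κ, ?_⟩
  intro T hT
  obtain ⟨hT1, hT2⟩ := hT
  have hinj := T.independent.injective
  have hne : ∀ i j : Fin 3, i ≠ j → T.points i ≠ T.points j := fun i j hij h => hij (hinj h)
  have hne' : ∀ i j : Fin 3, i ≠ j → psi E.center E.dir E.α E.β (T.points i) ≠
      psi E.center E.dir E.α E.β (T.points j) := by
    intro i j hij h
    apply hne i j hij
    rw [← phi_psi E.norm_dir hα hβ (T.points i), h, phi_psi E.norm_dir hα hβ]
  have hn : ∀ i : Fin 3, ‖psi E.center E.dir E.α E.β (T.points i)‖ = 1 := by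
    intro i
    have h1 : ‖psi E.center E.dir E.α E.β (T.points i)‖ ^ 2 = 1 := by
      rw [norm_psi_sq]
      exact hT1 i
    exact (pow_eq_one_iff_of_nonneg (norm_nonneg _) two_ne_zero).mp h1
  have ht : ∀ i j : Fin 3, i ≠ j → Tan c0 μ ν (psi E.center E.dir E.α E.β (T.points i))
      (psi E.center E.dir E.α E.β (T.points j)) := fun i j hij =>
    tan_of_sideTangent hμν hpsi (hT1 i) (hT1 j) (hne i j hij) (hT2 i j hij)
  have hdist : ∀ i : Fin 3, ‖(((E.α + E.β) / 2 : ℝ) : ℂ) * psi E.center E.dir E.α E.β (T.points i) +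
      (((E.α - E.β) / 2 : ℝ) : ℂ) * conj (psi E.center E.dir E.α E.β (T.points i)) -
      (T.circumsphere.center - E.center) * conj E.dir‖ ^ 2 = T.circumsphere.radius ^ 2 := by
    intro i
    have h1 : dist (T.points i) T.circumsphere.center = T.circumsphere.radius :=
      EuclideanGeometry.mem_sphere.mp (T.mem_circumsphere i)
    rw [← h1, Complex.dist_eq]
    congr 1
    have h2 : T.points i - T.circumsphere.center = E.dir *
        ((((E.α + E.β) / 2 : ℝ) : ℂ) * psi E.center E.dir E.α E.β (T.points i) +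
        (((E.α - E.β) / 2 : ℝ) : ℂ) * conj (psi E.center E.dir E.α E.β (T.points i)) -
        (T.circumsphere.center - E.center) * conj E.dir) := by
      have h3 := phi_psi E.norm_dir hα hβ (T.points i) (c := E.center)
      unfold phi at h3
      have h4 := mul_conj_of_norm E.norm_dir
      linear_combination -h3 + (T.circumsphere.center - E.center) * h4
    rw [h2, norm_mul, E.norm_dir, one_mul]
  have hfin := hp _ _ _ (hn 0) (hn 1) (hn 2) (hne' 0 1 (by decide)) (hne' 0 2 (by decide))
    (hne' 1 2 (by decide)) (ht 0 1 (by decide)) (ht 0 2 (by decide)) (ht 1 2 (by decide))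
    ((T.circumsphere.center - E.center) * conj E.dir) (T.circumsphere.radius ^ 2)
    (hdist 0) (hdist 1) (hdist 2)
  rw [EuclideanGeometry.Sphere.power, ← hfin, Complex.dist_eq]
  congr 2
  have h2 : E.center + E.dir * p - T.circumsphere.center = E.dir *
      (p - (T.circumsphere.center - E.center) * conj E.dir) := by
    have h4 := mul_conj_of_norm E.norm_dir
    linear_combination (T.circumsphere.center - E.center) * h4
  rw [h2, norm_mul, E.norm_dir, one_mul]

end Pool.Agent.Results.MP_d21a88_gt.CircumcirclePower
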